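import Pool.Agent.Lib.MP_e45c49_an.Super

/-!
Uniform normal structure implies superreflexivity.
-/

set_option autoImplicit false

namespace Pool.Agent.Results.MP_e45c49_an.Superreflexive

/-- The Chebyshev radius of `C`: the infimum over `x` in `C` of the supremum over `y` in `C` of
`‖x - y‖`. -/
noncomputable def chebyshevRadius {X : Type*} [NormedAddCommGroup X] (C : Set X) : ℝ :=
  sInf {s : ℝ | ∃ x ∈ C, s = sSup {t : ℝ | ∃ y ∈ C, t = ‖x - y‖}}

/-- Uniform normal structure: the supremum of `r(C) / diam C`, over the convex subsets `C` of the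
closed unit ball with at least two points, is less than `1`. -/
def UniformNormalStructure (X : Type*) [NormedAddCommGroup X] [NormedSpace ℝ X] : Prop :=
  sSup {t : ℝ | ∃ C : Set X, C ⊆ Metric.closedBall 0 1 ∧ Convex ℝ C ∧ C.Nontrivial ∧
    t = chebyshevRadius C / Metric.diam C} < 1

/-- `Y` is finitely representable in `X`: for each finite-dimensional subspace `F` of `Y` and each
`ε > 0` there is a linear isomorphism `T` of `F` onto a subspace `G` of `X` with
`‖T‖ * ‖T⁻¹‖ < 1 + ε`. -/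
def FinitelyRepresentable (𝕜 : Type*) [RCLike 𝕜] (Y X : Type*) [NormedAddCommGroup Y]
    [NormedSpace 𝕜 Y] [NormedAddCommGroup X] [NormedSpace 𝕜 X] : Prop :=
  ∀ F : Submodule 𝕜 Y, FiniteDimensional 𝕜 F → ∀ ε : ℝ, 0 < ε →
    ∃ (G : Submodule 𝕜 X) (T : F ≃L[𝕜] G),
      ‖(T : F →L[𝕜] G)‖ * ‖(T.symm : G →L[𝕜] F)‖ < 1 + ε

theorem uns_of {X : Type*} [NormedAddCommGroup X] [NormedSpace ℝ X]
    (hX : UniformNormalStructure X) : ∃ c < 1, Pool.Agent.Lib.UNS.UNSc X c := by
  refine ⟨_, hX, fun C hC hconv hnt => ?_⟩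
  have hbd : Bornology.IsBounded C := Metric.isBounded_closedBall.subset hC
  have hd : 0 < Metric.diam C := by
    obtain ⟨x, hx, y, hy, hxy⟩ := hnt
    exact lt_of_lt_of_le (dist_pos.2 hxy) (Metric.dist_le_diam_of_mem hbd hx hy)
  have hrad : ∀ D : Set X, D ⊆ Metric.closedBall 0 1 → D.Nontrivial →
      chebyshevRadius D ≤ Metric.diam D := by
    intro D hD hDn
    have hbD : Bornology.IsBounded D := Metric.isBounded_closedBall.subset hD
    obtain ⟨x, hx⟩ := hDn.nonempty
    have h1 : sSup {t : ℝ | ∃ y ∈ D, t = ‖x - y‖} ≤ Metric.diam D := by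
      refine csSup_le ⟨_, x, hx, rfl⟩ ?_
      rintro _ ⟨y, hy, rfl⟩
      rw [← dist_eq_norm]
      exact Metric.dist_le_diam_of_mem hbD hx hy
    have hbb : BddBelow {s : ℝ | ∃ x ∈ D, s = sSup {t : ℝ | ∃ y ∈ D, t = ‖x - y‖}} := by
      refine ⟨0, ?_⟩
      rintro _ ⟨z, hz, rfl⟩
      refine Real.sSup_nonneg ?_
      rintro _ ⟨y, _, rfl⟩
      exact norm_nonneg _
    exact (csInf_le hbb ⟨x, hx, rfl⟩).trans h1
  have hba : BddAbove {t : ℝ | ∃ C : Set X, C ⊆ Metric.closedBall 0 1 ∧ Convex ℝ C ∧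
      C.Nontrivial ∧ t = chebyshevRadius C / Metric.diam C} := by
    refine ⟨1, ?_⟩
    rintro _ ⟨D, hD, _, hDn, rfl⟩
    have hbD : Bornology.IsBounded D := Metric.isBounded_closedBall.subset hD
    have hdD : 0 < Metric.diam D := by
      obtain ⟨x, hx, y, hy, hxy⟩ := hDn
      exact lt_of_lt_of_le (dist_pos.2 hxy) (Metric.dist_le_diam_of_mem hbD hx hy)
    exact (div_le_one hdD).2 (hrad D hD hDn)
  have h2 : chebyshevRadius C / Metric.diam C ≤ sSup {t : ℝ | ∃ C : Set X,
      C ⊆ Metric.closedBall 0 1 ∧ Convex ℝ C ∧ C.Nontrivial ∧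
      t = chebyshevRadius C / Metric.diam C} := le_csSup hba ⟨C, hC, hconv, hnt, rfl⟩
  have h3 := (div_le_iff₀ hd).1 h2
  refine le_trans (le_of_eq ?_) h3
  unfold chebyshevRadius
  congr 1
  ext s
  constructor
  · rintro ⟨x, hx, rfl⟩
    refine ⟨x, hx, ?_⟩
    simp only
    congr 1
    ext t
    exact ⟨fun ⟨y, hy, h⟩ => ⟨y, hy, h.symm⟩, fun ⟨y, hy, h⟩ => ⟨y, hy, h.symm⟩⟩
  · rintro ⟨x, hx, rfl⟩
    refine ⟨x, hx, ?_⟩
    simp only
    congr 1
    ext t
    exact ⟨fun ⟨y, hy, h⟩ => ⟨y, hy, h.symm⟩, fun ⟨y, hy, h⟩ => ⟨y, hy, h.symm⟩⟩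

/-- **Uniform normal structure implies superreflexivity.** Let `X` be a real or complex Banach space
with uniform normal structure. Then every Banach space `Y` (over the same field) which is finitely
representable in `X` is reflexive: its canonical embedding in its second dual is surjective. -/
theorem result {𝕜 : Type*} [RCLike 𝕜] (X : Type*) [NormedAddCommGroup X] [NormedSpace ℝ X]
    [NormedSpace 𝕜 X] [IsScalarTower ℝ 𝕜 X] [CompleteSpace X] (hX : UniformNormalStructure X)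
    (Y : Type*) [NormedAddCommGroup Y] [NormedSpace 𝕜 Y] [CompleteSpace Y]
    (hY : FinitelyRepresentable 𝕜 Y X) :
    Function.Surjective (NormedSpace.inclusionInDoubleDual 𝕜 Y) := by
  obtain ⟨c, hc, hc'⟩ := uns_of hX
  refine Pool.Agent.Lib.UNS.reflexive_of_repr hc hc' fun F hF => ?_
  obtain ⟨G, T, hT⟩ := hY F hF 1 one_pos
  exact ⟨G, T, by linarith⟩

end Pool.Agent.Results.MP_e45c49_an.Superreflexive
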